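import Mathlib
import Pool.Agent.Helper96.OR.Final
import Pool.Agent.Helper53.OC.B9b

/-!
Ordered Ramsey numbers of the cube (MP_09b4c2): from rows and columns of a pattern to (almost) copies of
the cube.
-/

namespace Pool.Agent.Helper2.AC

open Finset
open Pool.Agent.Helper96.OR (Idx adj rank)

/-- rows and columns of a pattern give an ordered embedding of the cube, lower vertices of edges go
to rows and upper vertices to columns -/
theorem embed (q k d : ℕ) (h : Fin q → Fin q → Prop)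
    (φ : (Fin d → Bool) → Bool × Idx q k) (hφ : Function.Injective φ)
    (hφ2 : ∀ x x', hammingDist x x' = 1 → (φ x).1 ≠ (φ x').1 ∧
        ((φ x).2 = (φ x').2 ∨ adj h k (φ x).2 (φ x').2)) :
    ∃ σ : Fin (2 ^ d) ≃ (Fin d → Bool),
      (∀ i j : Fin (2 ^ d), i < j → hammingDist (σ i) (σ j) = 1 →
        (φ (σ i)).1 = false ∧ (φ (σ j)).1 = true ∧
        ((φ (σ i)).2 = (φ (σ j)).2 ∨ adj h k (φ (σ i)).2 (φ (σ j)).2)) ∧
      ∀ (N m : ℕ) (r c : Idx q k → ℕ), (∀ v, r v < m) → (∀ v, m ≤ c v) → (∀ v, c v < N) →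
      (∀ v v', rank k v < rank k v' → r v < r v') →
      (∀ v v', rank k v < rank k v' → c v < c v') →
      ∃ g : Fin (2 ^ d) → Fin N, StrictMono g ∧
        (∀ i, (φ (σ i)).1 = false → (g i : ℕ) = r (φ (σ i)).2) ∧
        (∀ i, (φ (σ i)).1 = true → (g i : ℕ) = c (φ (σ i)).2) := by
  classical
  let key : (Fin d → Bool) → ℕ := fun x => (if (φ x).1 = true then q ^ k else 0) + rank k (φ x).2
  have hkey : Function.Injective key := by
    intro x x' hxx
    apply hφ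
    have h1 := Pool.Agent.Helper96.OR.rank_lt q k (φ x).2
    have h2 := Pool.Agent.Helper96.OR.rank_lt q k (φ x').2
    simp only [key] at hxx
    by_cases h3 : (φ x).1 = true <;> by_cases h4 : (φ x').1 = true
    · rw [if_pos h3, if_pos h4] at hxx
      exact Prod.ext (h3.trans h4.symm) (Pool.Agent.Helper96.OR.rank_inj q k (by omega))
    · rw [if_pos h3, if_neg h4] at hxx
      omega
    · rw [if_neg h3, if_pos h4] at hxx
      omega
    · rw [if_neg h3, if_neg h4] at hxx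
      refine Prod.ext ?_ (Pool.Agent.Helper96.OR.rank_inj q k (by omega))
      rw [Bool.not_eq_true] at h3 h4
      exact h3.trans h4.symm
  obtain ⟨σ, hσ⟩ := Pool.Agent.Helper96.OR.sort_key d key hkey
  refine ⟨σ, fun i j hij hd => ?_, ?_⟩
  · obtain ⟨h1, h2⟩ := hφ2 _ _ hd
    have h0 := hσ hij
    have h5 := Pool.Agent.Helper96.OR.rank_lt q k (φ (σ i)).2
    have h6 := Pool.Agent.Helper96.OR.rank_lt q k (φ (σ j)).2
    simp only [key] at h0
    by_cases h3 : (φ (σ i)).1 = true <;> by_cases h4 : (φ (σ j)).1 = true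
    · exact absurd (h3.trans h4.symm) h1
    · rw [if_pos h3, if_neg h4] at h0
      omega
    · exact ⟨by rwa [Bool.not_eq_true] at h3, h4, h2⟩
    · rw [Bool.not_eq_true] at h3 h4
      exact absurd (h3.trans h4.symm) h1
  intro N m r c hr hc hcN hro hco
  let g' : (Fin d → Bool) → ℕ := fun x => if (φ x).1 = true then c (φ x).2 else r (φ x).2
  have hg' : ∀ x, g' x < N := by
    intro x
    simp only [g']
    split_ifs
    · exact hcN _
    · exact (hr _).trans ((hc (φ x).2).trans_lt (hcN _))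
  refine ⟨fun i => ⟨g' (σ i), hg' _⟩, ?_, ?_, ?_⟩
  · intro i j hij
    have h0 := hσ hij
    rw [Fin.mk_lt_mk]
    have h1 := Pool.Agent.Helper96.OR.rank_lt q k (φ (σ i)).2
    have h2 := Pool.Agent.Helper96.OR.rank_lt q k (φ (σ j)).2
    simp only [key] at h0
    simp only [g']
    by_cases h3 : (φ (σ i)).1 = true <;> by_cases h4 : (φ (σ j)).1 = true
    · rw [if_pos h3, if_pos h4] at h0 ⊢
      exact hco _ _ (by omega)
    · rw [if_pos h3, if_neg h4] at h0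
      omega
    · rw [if_neg h3, if_pos h4]
      exact (hr _).trans_le (hc _)
    · rw [if_neg h3, if_neg h4] at h0 ⊢
      exact hro _ _ (by omega)
  · intro i hi
    exact if_neg (by rw [hi]; exact Bool.false_ne_true)
  · intro i hi
    exact if_pos hi

/-- a full copy -/
theorem full_copy (q k d : ℕ) (h : Fin q → Fin q → Prop)
    (φ : (Fin d → Bool) → Bool × Idx q k) (σ : Fin (2 ^ d) ≃ (Fin d → Bool))
    (hσ : ∀ i j : Fin (2 ^ d), i < j → hammingDist (σ i) (σ j) = 1 →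
        (φ (σ i)).1 = false ∧ (φ (σ j)).1 = true ∧
        ((φ (σ i)).2 = (φ (σ j)).2 ∨ adj h k (φ (σ i)).2 (φ (σ j)).2))
    (N : ℕ) (f : Fin N → Fin N → Bool) (β : Bool) (r c : Idx q k → ℕ)
    (hE : ∀ v w, (v = w ∨ adj h k v w) → ∀ (hr : r v < N) (hc : c w < N),
        f ⟨r v, hr⟩ ⟨c w, hc⟩ = β) (g : Fin (2 ^ d) → Fin N)
    (hg1 : ∀ i, (φ (σ i)).1 = false → (g i : ℕ) = r (φ (σ i)).2)
    (hg2 : ∀ i, (φ (σ i)).1 = true → (g i : ℕ) = c (φ (σ i)).2) (i j : Fin (2 ^ d)) (hij : i < j)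
    (hd : hammingDist (σ i) (σ j) = 1) : f (g i) (g j) = β := by
  obtain ⟨h1, h2, h3⟩ := hσ i j hij hd
  have e1 := hg1 i h1
  have e2 := hg2 j h2
  have h4 := hE _ _ h3 (by rw [← e1]; exact (g i).2) (by rw [← e2]; exact (g j).2)
  have e3 : g i = ⟨r (φ (σ i)).2, by rw [← e1]; exact (g i).2⟩ := Fin.ext e1
  have e4 : g j = ⟨c (φ (σ j)).2, by rw [← e2]; exact (g j).2⟩ := Fin.ext e2
  rw [e3, e4]
  exact h4

/-- an almost copy: every vertex vetoes few of its edges -/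
theorem almost_copy (q k d : ℕ) (h : Fin q → Fin q → Prop)
    (φ : (Fin d → Bool) → Bool × Idx q k) (hφ : Function.Injective φ)
    (σ : Fin (2 ^ d) ≃ (Fin d → Bool))
    (hσ : ∀ i j : Fin (2 ^ d), i < j → hammingDist (σ i) (σ j) = 1 →
        (φ (σ i)).1 = false ∧ (φ (σ j)).1 = true ∧
        ((φ (σ i)).2 = (φ (σ j)).2 ∨ adj h k (φ (σ i)).2 (φ (σ j)).2))
    (N : ℕ) (f : Fin N → Fin N → Bool) (β : Bool) (r c : Idx q k → ℕ)
    (b : ℕ → ℕ → ℝ) (hb : ∀ x y, ∀ (hx : x < N) (hy : y < N), f ⟨x, hx⟩ ⟨y, hy⟩ = β → b x y = 1)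
    (Ch : Idx q k → Idx q k → Prop) (L : ℝ)
    (hL1 : ∀ u, ({w | (u = w ∨ adj h k u w) ∧ b (r u) (c w) = 1 ∧ Ch u w}.ncard : ℝ) ≤ L)
    (hL2 : ∀ w, ({u | (u = w ∨ adj h k u w) ∧ b (r u) (c w) = 1 ∧ ¬ Ch u w}.ncard : ℝ) ≤ L)
    (g : Fin (2 ^ d) → Fin N)
    (hg1 : ∀ i, (φ (σ i)).1 = false → (g i : ℕ) = r (φ (σ i)).2)
    (hg2 : ∀ i, (φ (σ i)).1 = true → (g i : ℕ) = c (φ (σ i)).2) :
    ∃ M : Fin (2 ^ d) → Finset (Fin (2 ^ d)), (∀ i, ((M i).card : ℝ) ≤ L) ∧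
      ∀ i j : Fin (2 ^ d), i < j → hammingDist (σ i) (σ j) = 1 →
        f (g i) (g j) = !β ∨ j ∈ M i ∨ i ∈ M j := by
  classical
  obtain ⟨Bd, hBd⟩ : ∃ Bd : Fin (2 ^ d) → Fin (2 ^ d) → Prop, ∀ i j, Bd i j ↔
      (i < j ∧ hammingDist (σ i) (σ j) = 1 ∧ f (g i) (g j) = β) := ⟨_, fun i j => Iff.rfl⟩
  have hMf : ∀ i j, Bd i j → (φ (σ i)).1 = false ∧ (φ (σ j)).1 = true ∧
      ((φ (σ i)).2 = (φ (σ j)).2 ∨ adj h k (φ (σ i)).2 (φ (σ j)).2) ∧
      b (r (φ (σ i)).2) (c (φ (σ j)).2) = 1 := by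
    intro i j hij
    obtain ⟨h2, h3, h4⟩ := (hBd i j).1 hij
    obtain ⟨h5, h6, h7⟩ := hσ _ _ h2 h3
    have e1 := hg1 i h5
    have e2 := hg2 j h6
    refine ⟨h5, h6, h7, ?_⟩
    rw [← e1, ← e2]
    exact hb _ _ (g i).2 (g j).2 h4
  let M1 : Fin (2 ^ d) → Finset (Fin (2 ^ d)) := fun i =>
    univ.filter fun j => Bd i j ∧ Ch (φ (σ i)).2 (φ (σ j)).2
  let M2 : Fin (2 ^ d) → Finset (Fin (2 ^ d)) := fun j =>
    univ.filter fun i => Bd i j ∧ ¬ Ch (φ (σ i)).2 (φ (σ j)).2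
  have hM1 : ∀ i, ((M1 i).card : ℝ) ≤ L := by
    intro i
    refine le_trans ?_ (hL1 (φ (σ i)).2)
    rw [Nat.cast_le, ← Set.ncard_coe_finset]
    refine Set.ncard_le_ncard_of_injOn (fun j => (φ (σ j)).2) ?_ ?_ (Set.toFinite _)
    · intro j hj
      obtain ⟨-, h1, h2⟩ := mem_filter.1 (mem_coe.1 hj)
      obtain ⟨-, -, h7, h8⟩ := hMf i j h1
      exact ⟨h7, h8, h2⟩
    · intro j hj j' hj' hjj
      obtain ⟨-, h1, -⟩ := mem_filter.1 (mem_coe.1 hj)
      obtain ⟨-, h1', -⟩ := mem_filter.1 (mem_coe.1 hj')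
      obtain ⟨-, h6, -, -⟩ := hMf i j h1
      obtain ⟨-, h6', -, -⟩ := hMf i j' h1'
      exact σ.injective (hφ (Prod.ext (h6.trans h6'.symm) hjj))
  have hM2 : ∀ j, ((M2 j).card : ℝ) ≤ L := by
    intro j
    refine le_trans ?_ (hL2 (φ (σ j)).2)
    rw [Nat.cast_le, ← Set.ncard_coe_finset]
    refine Set.ncard_le_ncard_of_injOn (fun i => (φ (σ i)).2) ?_ ?_ (Set.toFinite _)
    · intro i hi
      obtain ⟨-, h1, h2⟩ := mem_filter.1 (mem_coe.1 hi)
      obtain ⟨-, -, h7, h8⟩ := hMf i j h1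
      exact ⟨h7, h8, h2⟩
    · intro i hi i' hi' hii
      obtain ⟨-, h1, -⟩ := mem_filter.1 (mem_coe.1 hi)
      obtain ⟨-, h1', -⟩ := mem_filter.1 (mem_coe.1 hi')
      obtain ⟨h5, -, -, -⟩ := hMf i j h1
      obtain ⟨h5', -, -, -⟩ := hMf i' j h1'
      exact σ.injective (hφ (Prod.ext (h5.trans h5'.symm) hii))
  refine ⟨fun i => if (φ (σ i)).1 = false then M1 i else M2 i, fun i => ?_, fun i j hij hd => ?_⟩
  · change (((if (φ (σ i)).1 = false then M1 i else M2 i) : Finset (Fin (2 ^ d))).card : ℝ) ≤ L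
    split_ifs
    · exact hM1 i
    · exact hM2 i
  · by_cases hf : f (g i) (g j) = β
    · right
      have hb1 : Bd i j := (hBd i j).2 ⟨hij, hd, hf⟩
      obtain ⟨h5, h6, -, -⟩ := hMf i j hb1
      by_cases hCh : Ch (φ (σ i)).2 (φ (σ j)).2
      · left
        change j ∈ if (φ (σ i)).1 = false then M1 i else M2 i
        rw [if_pos h5]
        exact mem_filter.2 ⟨mem_univ _, hb1, hCh⟩
      · right
        change i ∈ if (φ (σ j)).1 = false then M1 j else M2 j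
        rw [if_neg (by rw [h6]; simp)]
        exact mem_filter.2 ⟨mem_univ _, hb1, hCh⟩
    · left
      rwa [Bool.eq_not]

end Pool.Agent.Helper2.AC
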