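import Mathlib
import Pool.Agent.Helper96.OR.Defs

/-!
Ordered Ramsey numbers of the cube (MP_09b4c2): greedy embedding of an ordered graph of bounded degeneracy,
or a sparse pair of sets.
-/

namespace Pool.Agent.Helper2.AC

open Finset
open Pool.Agent.Helper96.OR (dens)

/-- symmetrised colour -/
def red (b : ℕ → ℕ → ℝ) (x y : ℕ) : Prop := (x < y ∧ b x y = 1) ∨ (y < x ∧ b y x = 1)

theorem red_symm (b : ℕ → ℕ → ℝ) (x y : ℕ) (h : red b x y) : red b y x := by
  rcases h with h | h
  · exact Or.inr h
  · exact Or.inl h

theorem red_lt (b : ℕ → ℕ → ℝ) (x y : ℕ) (hxy : x < y) : red b x y ↔ b x y = 1 := by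
  constructor
  · rintro (h | h)
    · exact h.2
    · omega
  · intro h
    exact Or.inl ⟨hxy, h⟩

/-- few red pairs give small density -/
theorem dens_lt (b : ℕ → ℕ → ℝ) (hb : ∀ r c, b r c = 0 ∨ b r c = 1) (B C : Finset ℕ) (δ : ℝ)
    (hB : 0 < B.card) (hC : 0 < C.card)
    (h : ∀ x ∈ B, ∑ y ∈ C, b x y < δ * C.card) : dens b B C < δ := by
  have _ := hb
  have h1 : ∑ x ∈ B, ∑ y ∈ C, b x y < ∑ x ∈ B, δ * C.card := by
    obtain ⟨x, hx⟩ := card_pos.1 hB
    exact sum_lt_sum (fun x hx => (h x hx).le) ⟨x, hx, h x hx⟩
  rw [sum_const, nsmul_eq_mul] at h1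
  unfold Pool.Agent.Helper96.OR.dens
  have hBr : (0 : ℝ) < B.card := by exact_mod_cast hB
  have hCr : (0 : ℝ) < C.card := by exact_mod_cast hC
  rw [div_lt_iff₀ (by positivity)]
  linarith

theorem dens_lt' (b : ℕ → ℕ → ℝ) (hb : ∀ r c, b r c = 0 ∨ b r c = 1) (B C : Finset ℕ) (δ : ℝ)
    (hB : 0 < B.card) (hC : 0 < C.card)
    (h : ∀ y ∈ C, ∑ x ∈ B, b x y < δ * B.card) : dens b B C < δ := by
  have h1 := dens_lt (fun y x => b x y) (fun y x => hb x y) C B δ hC hB h
  refine lt_of_eq_of_lt ?_ h1
  unfold Pool.Agent.Helper96.OR.dens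
  rw [sum_comm, mul_comm]

theorem sum_red (b : ℕ → ℕ → ℝ) (hb : ∀ r c, b r c = 0 ∨ b r c = 1) (x : ℕ) (C : Finset ℕ) :
    ∑ y ∈ C, b x y = ((C.filter fun y => b x y = 1).card : ℝ) := by
  classical
  rw [card_filter, Nat.cast_sum]
  refine sum_congr rfl fun y _ => ?_
  rcases hb x y with h | h
  · rw [h, if_neg zero_ne_one]
    simp
  · rw [h, if_pos rfl]
    simp

/-- Greedy dichotomy for ordered graphs of bounded degeneracy. -/
theorem dgrr {h : ℕ} (E : Fin h → Fin h → Prop) (hsym : ∀ v w, E v w → E w v)
    (hirr : ∀ v, ¬ E v v) (ρ : Fin h → ℕ) (hρ : Function.Injective ρ) (D : ℕ)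
    (hD : ∀ v, {w | E v w ∧ ρ w < ρ v}.ncard ≤ D) (b : ℕ → ℕ → ℝ)
    (hb : ∀ r c, b r c = 0 ∨ b r c = 1) (s : ℕ) (hs : 0 < s) (δ : ℝ) (hδ0 : 0 < δ)
    (hδ1 : δ ≤ 1) :
    (∃ x : Fin h → ℕ, (∀ v : Fin h, x v ∈ Ico ((v : ℕ) * s) (((v : ℕ) + 1) * s)) ∧
      ∀ v w, v < w → E v w → b (x v) (x w) = 1) ∨
    (∃ v w : Fin h, v < w ∧ ∃ B ⊆ Ico ((v : ℕ) * s) (((v : ℕ) + 1) * s),
      ∃ C ⊆ Ico ((w : ℕ) * s) (((w : ℕ) + 1) * s), δ ^ D * s ≤ h * B.card ∧
      δ ^ D * s ≤ h * C.card ∧ 0 < B.card ∧ 0 < C.card ∧ dens b B C < δ) := by
  classical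
  by_contra hcon
  rw [not_or] at hcon
  obtain ⟨hnoR, hnoS⟩ := hcon
  obtain ⟨I, hI⟩ : ∃ I : Fin h → Finset ℕ,
      ∀ v, I v = Ico ((v : ℕ) * s) (((v : ℕ) + 1) * s) := ⟨_, fun v => rfl⟩
  have hIlt : ∀ v w : Fin h, v < w → ∀ x ∈ I v, ∀ y ∈ I w, x < y := by
    intro v w hvw x hx y hy
    rw [hI] at hx hy
    have h1 := (mem_Ico.1 hx).2
    have h2 := (mem_Ico.1 hy).1
    have h3 : ((v : ℕ) + 1) * s ≤ (w : ℕ) * s := Nat.mul_le_mul_right _ hvw
    omega
  have hIc : ∀ v, (I v).card = s := by
    intro v
    rw [hI, Nat.card_Ico, add_mul, one_mul]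
    omega
  have hdeg : ∀ (k : ℕ) (w : Fin h), k ≤ ρ w →
      (univ.filter fun v => E w v ∧ ρ v < k).card ≤ D := by
    intro k w hk
    refine le_trans ?_ (hD w)
    rw [← Set.ncard_coe_finset]
    refine Set.ncard_le_ncard ?_ (Set.toFinite _)
    intro v hv
    obtain ⟨-, h1, h2⟩ := mem_filter.1 (mem_coe.1 hv)
    exact ⟨h1, lt_of_lt_of_le h2 hk⟩
  have key : ∀ k : ℕ, ∃ x : Fin h → ℕ, (∀ v, ρ v < k → x v ∈ I v) ∧
      (∀ v w, ρ v < k → ρ w < k → E v w → red b (x v) (x w)) ∧
      ∀ w, k ≤ ρ w → δ ^ (univ.filter fun v => E w v ∧ ρ v < k).card * s ≤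
        (((I w).filter fun y => ∀ v, E w v → ρ v < k → red b (x v) y).card : ℝ) := by
    intro k
    induction k with
    | zero =>
      refine ⟨fun _ => 0, fun v hv => absurd hv (Nat.not_lt_zero _),
        fun v w hv => absurd hv (Nat.not_lt_zero _), fun w _ => ?_⟩
      have h1 : (univ.filter fun v => E w v ∧ ρ v < 0) = ∅ :=
        filter_eq_empty_iff.2 fun v _ h => Nat.not_lt_zero _ h.2
      have h2 : ((I w).filter fun y => ∀ v, E w v → ρ v < 0 → red b 0 y) = I w :=
        filter_eq_self.2 fun y _ v _ h => absurd h (Nat.not_lt_zero _)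
      rw [h1, h2, hIc, card_empty, pow_zero, one_mul]
    | succ k ih =>
      obtain ⟨x, hx1, hx2, hx3⟩ := ih
      by_cases hv : ∃ v, ρ v = k
      · obtain ⟨v, hv⟩ := hv
        obtain ⟨Cn, hCn⟩ : ∃ Cn : Fin h → Finset ℕ, ∀ w, Cn w =
            (I w).filter fun y => ∀ u, E w u → ρ u < k → red b (x u) y := ⟨_, fun w => rfl⟩
        have hCI : ∀ w, Cn w ⊆ I w := fun w => by
          rw [hCn]
          exact filter_subset _ _
        have hbig : ∀ w, k ≤ ρ w → δ ^ D * s ≤ ((Cn w).card : ℝ) := by
          intro w hw
          rw [hCn]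
          refine le_trans ?_ (hx3 w hw)
          have h1 := pow_le_pow_of_le_one hδ0.le hδ1 (hdeg k w hw)
          exact mul_le_mul_of_nonneg_right h1 (Nat.cast_nonneg _)
        have hpos : ∀ w, k ≤ ρ w → 0 < (Cn w).card := by
          intro w hw
          have h1 : 0 < δ ^ D * (s : ℝ) := by
            have : (0 : ℝ) < s := by exact_mod_cast hs
            positivity
          exact_mod_cast h1.trans_le (hbig w hw)
        -- a good vertex
        have hgood : ∃ y ∈ Cn v, ∀ w, k < ρ w → E v w →
            δ * (Cn w).card ≤ (((Cn w).filter fun z => red b y z).card : ℝ) := by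
          by_contra hno
          have hno' : ∀ y ∈ Cn v, ∃ w, k < ρ w ∧ E v w ∧
              (((Cn w).filter fun z => red b y z).card : ℝ) < δ * (Cn w).card := by
            intro y hy
            by_contra h1
            refine hno ⟨y, hy, fun w hw hE => ?_⟩
            by_contra h2
            exact h1 ⟨w, hw, hE, not_le.1 h2⟩
          obtain ⟨Bd, hBd⟩ : ∃ Bd : Fin h → Finset ℕ, ∀ w, Bd w = (Cn v).filter fun y =>
              k < ρ w ∧ E v w ∧ (((Cn w).filter fun z => red b y z).card : ℝ) <
                δ * (Cn w).card := ⟨_, fun w => rfl⟩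
          have hcov : Cn v ⊆ univ.biUnion Bd := by
            intro y hy
            obtain ⟨w, h1⟩ := hno' y hy
            refine mem_biUnion.2 ⟨w, mem_univ w, ?_⟩
            rw [hBd]
            exact mem_filter.2 ⟨hy, h1⟩
          have hex : ∃ w, (Cn v).card ≤ h * (Bd w).card := by
            by_contra h1
            push Not at h1
            have h0 : 0 < h := v.pos
            have h2 : ∑ w : Fin h, h * (Bd w).card < ∑ w : Fin h, (Cn v).card :=
              sum_lt_sum_of_nonempty ⟨v, mem_univ v⟩ fun w _ => h1 w
            rw [← mul_sum, sum_const, card_univ, Fintype.card_fin, smul_eq_mul] at h2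
            have h3 := Nat.lt_of_mul_lt_mul_left h2
            have h4 := (card_le_card hcov).trans card_biUnion_le
            omega
          obtain ⟨w, hw⟩ := hex
          have hBv : 0 < (Bd w).card := by
            have h1 := hpos v (by omega)
            by_contra h2
            have h3 : (Bd w).card = 0 := by omega
            rw [h3, mul_zero] at hw
            omega
          obtain ⟨y0, hy0⟩ := card_pos.1 hBv
          rw [hBd] at hy0
          obtain ⟨hy0c, hkw, hEw, -⟩ := mem_filter.1 hy0
          have hBC : Bd w ⊆ Cn v := by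
            rw [hBd]
            exact filter_subset _ _
          have hBlt : ∀ y ∈ Bd w, (((Cn w).filter fun z => red b y z).card : ℝ) <
              δ * (Cn w).card := by
            intro y hy
            rw [hBd] at hy
            exact (mem_filter.1 hy).2.2.2
          have hs1 : δ ^ D * s ≤ h * (Bd w).card := by
            refine (hbig v (by omega)).trans ?_
            exact_mod_cast hw
          have hs2 : δ ^ D * s ≤ h * (Cn w).card := by
            refine (hbig w hkw.le).trans ?_
            have h1 : (1 : ℝ) ≤ h := by exact_mod_cast v.pos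
            exact le_mul_of_one_le_left (Nat.cast_nonneg _) h1
          have hvw : v ≠ w := by
            rintro rfl
            exact hirr v hEw
          rcases lt_or_gt_of_ne hvw with hlt | hlt
          · refine hnoS ⟨v, w, hlt, Bd w, ?_, Cn w, ?_, hs1, hs2, hBv, hpos w hkw.le, ?_⟩
            · rw [← hI]
              exact hBC.trans (hCI v)
            · rw [← hI]
              exact hCI w
            · refine dens_lt b hb _ _ δ hBv (hpos w hkw.le) fun y hy => ?_
              refine lt_of_le_of_lt (le_of_eq ?_) (hBlt y hy)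
              rw [sum_red b hb]
              congr 2
              refine filter_congr fun z hz => ?_
              exact (red_lt b y z (hIlt v w hlt y (hCI v (hBC hy)) z (hCI w hz))).symm
          · refine hnoS ⟨w, v, hlt, Cn w, ?_, Bd w, ?_, hs2, hs1, hpos w hkw.le, hBv, ?_⟩
            · rw [← hI]
              exact hCI w
            · rw [← hI]
              exact hBC.trans (hCI v)
            · refine dens_lt' b hb _ _ δ (hpos w hkw.le) hBv fun y hy => ?_
              refine lt_of_le_of_lt (le_of_eq ?_) (hBlt y hy)
              rw [sum_red (fun y x => b x y) (fun y x => hb x y) y]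
              congr 2
              refine filter_congr fun z hz => ?_
              rw [← red_lt b z y (hIlt w v hlt z (hCI w hz) y (hCI v (hBC hy)))]
              exact ⟨red_symm b z y, red_symm b y z⟩
        obtain ⟨y, hy, hyg⟩ := hgood
        have hyI := hCI v hy
        have hyr : ∀ u, E v u → ρ u < k → red b (x u) y := by
          rw [hCn] at hy
          exact (mem_filter.1 hy).2
        obtain ⟨x', hx'⟩ : ∃ x' : Fin h → ℕ, ∀ u, x' u = if u = v then y else x u :=
          ⟨_, fun u => rfl⟩
        have hx'v : x' v = y := by rw [hx', if_pos rfl]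
        have hx'u : ∀ u, u ≠ v → x' u = x u := fun u hu => by rw [hx', if_neg hu]
        have hsplit : ∀ u, ρ u < k + 1 → u = v ∨ ρ u < k := by
          intro u hu
          rcases Nat.lt_or_ge (ρ u) k with h1 | h1
          · exact Or.inr h1
          · exact Or.inl (hρ (by omega))
        have hne : ∀ u, ρ u < k → u ≠ v := by
          rintro u hu rfl
          omega
        refine ⟨x', fun u hu => ?_, fun u w hu hw hE => ?_, fun w hw => ?_⟩
        · rcases hsplit u hu with rfl | h1
          · rw [hx'v]
            exact hyI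
          · rw [hx'u u (hne u h1)]
            exact hx1 u h1
        · rcases hsplit u hu with rfl | h1 <;> rcases hsplit w hw with rfl | h2
          · exact absurd hE (hirr _)
          · rw [hx'v, hx'u w (hne w h2)]
            exact red_symm b _ _ (hyr w hE h2)
          · rw [hx'v, hx'u u (hne u h1)]
            exact hyr u (hsym _ _ hE) h1
          · rw [hx'u u (hne u h1), hx'u w (hne w h2)]
            exact hx2 u w h1 h2 hE
        · have hkw : k < ρ w := by omega
          by_cases hE : E w v
          · have h1 : (univ.filter fun u => E w u ∧ ρ u < k + 1) =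
                insert v (univ.filter fun u => E w u ∧ ρ u < k) := by
              ext u
              rw [mem_filter, mem_insert, mem_filter]
              constructor
              · rintro ⟨-, h2, h3⟩
                rcases hsplit u h3 with h4 | h4
                · exact Or.inl h4
                · exact Or.inr ⟨mem_univ _, h2, h4⟩
              · rintro (rfl | ⟨-, h2, h3⟩)
                · exact ⟨mem_univ _, hE, by omega⟩
                · exact ⟨mem_univ _, h2, by omega⟩
            have h2 : v ∉ univ.filter fun u => E w u ∧ ρ u < k := by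
              intro h3
              have := (mem_filter.1 h3).2.2
              omega
            have h3 : ((I w).filter fun z => ∀ u, E w u → ρ u < k + 1 → red b (x' u) z) =
                (Cn w).filter fun z => red b y z := by
              ext z
              rw [hCn, mem_filter, mem_filter, mem_filter]
              constructor
              · rintro ⟨h4, h5⟩
                refine ⟨⟨h4, fun u hu hk => ?_⟩, ?_⟩
                · have h6 := h5 u hu (by omega)
                  rwa [hx'u u (hne u hk)] at h6
                · have h6 := h5 v hE (by omega)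
                  rwa [hx'v] at h6
              · rintro ⟨⟨h4, h5⟩, h6⟩
                refine ⟨h4, fun u hu hk => ?_⟩
                rcases hsplit u hk with rfl | h7
                · rw [hx'v]
                  exact h6
                · rw [hx'u u (hne u h7)]
                  exact h5 u hu h7
            rw [h1, card_insert_of_notMem h2, h3]
            refine le_trans ?_ (hyg w hkw (hsym _ _ hE))
            have h4 := hx3 w hkw.le
            rw [← hCn w] at h4
            calc δ ^ ((univ.filter fun u => E w u ∧ ρ u < k).card + 1) * (s : ℝ)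
                = δ * (δ ^ (univ.filter fun u => E w u ∧ ρ u < k).card * s) := by
                  rw [pow_succ]
                  ring
              _ ≤ δ * (Cn w).card := mul_le_mul_of_nonneg_left h4 hδ0.le
          · have h1 : (univ.filter fun u => E w u ∧ ρ u < k + 1) =
                univ.filter fun u => E w u ∧ ρ u < k := by
              ext u
              rw [mem_filter, mem_filter]
              constructor
              · rintro ⟨-, h2, h3⟩
                rcases hsplit u h3 with h4 | h4
                · exact absurd (h4 ▸ h2) hE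
                · exact ⟨mem_univ _, h2, h4⟩
              · rintro ⟨-, h2, h3⟩
                exact ⟨mem_univ _, h2, by omega⟩
            have h3 : ((I w).filter fun z => ∀ u, E w u → ρ u < k + 1 → red b (x' u) z) =
                (I w).filter fun z => ∀ u, E w u → ρ u < k → red b (x u) z := by
              refine filter_congr fun z _ => ?_
              constructor
              · intro h5 u hu hk
                have h6 := h5 u hu (by omega)
                rwa [hx'u u (hne u hk)] at h6
              · intro h5 u hu hk
                rcases hsplit u hk with h7 | h7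
                · exact absurd (h7 ▸ hu) hE
                · rw [hx'u u (hne u h7)]
                  exact h5 u hu h7
            rw [h1, h3]
            exact hx3 w hkw.le
      · have hlt : ∀ u, ρ u < k + 1 ↔ ρ u < k := by
          intro u
          constructor
          · intro h1
            have h2 : ρ u ≠ k := fun h3 => hv ⟨u, h3⟩
            omega
          · intro h1
            omega
        refine ⟨x, fun u hu => hx1 u ((hlt u).1 hu),
          fun u w hu hw hE => hx2 u w ((hlt u).1 hu) ((hlt w).1 hw) hE, fun w hw => ?_⟩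
        have h1 := hx3 w (by omega)
        simp only [hlt]
        exact h1
  obtain ⟨K, hK⟩ : ∃ K, ∀ v, ρ v < K := by
    refine ⟨∑ v, ρ v + 1, fun v => ?_⟩
    have := single_le_sum (f := ρ) (fun _ _ => Nat.zero_le _) (mem_univ v)
    omega
  obtain ⟨x, hx1, hx2, -⟩ := key K
  refine hnoR ⟨x, fun v => ?_, fun v w hvw hE => ?_⟩
  · rw [← hI]
    exact hx1 v (hK v)
  · exact (red_lt b _ _ (hIlt v w hvw _ (hx1 v (hK v)) _ (hx1 w (hK w)))).1
      (hx2 v w (hK v) (hK w) hE)

end Pool.Agent.Helper2.AC
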