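import Mathlib
import Pool.Agent.Helper53.OC.Final

/-!
Ordered Ramsey numbers of the cube (MP_09b4c2): windows with constant density. At the last level the
loads are small multiples of the dimension and the certificates bound the number of missing edges.
-/

namespace Pool.Agent.Helper2.AC

open Finset
open Pool.Agent.Helper96.OR (Idx adj rank)
open Pool.Agent.Helper53.OC

/-- one row or column -/
theorem key {N n : ℕ} (hn : 1 ≤ n) (A ρ φ X : ℝ) (C β : ℕ)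
    (hA : A = 4 * Real.exp 2003) (hC : 2000 * A + 3 ≤ C) (hN : 2 ^ (C * n) ≤ N) (hφ : 0 < φ)
    (hρ : (11 + 10 * (n : ℝ)) * Real.sqrt ρ ≤ φ) (hX : φ ≤ X)
    (hpot : (X * (1 + 1 / (1000 * n)) ^ β) ^ n ≤ (2 * Real.exp 2003) ^ n *
      (2 * (φ + (11 + 10 * (n : ℝ)) * Real.sqrt ρ) ^ n)) :
    X ≤ 2 * A * φ ∧ ∀ t : ℝ, t * N ≤ 2 ^ β → t ≤ 1 / 8 := by
  have hE : 0 < Real.exp 2003 := Real.exp_pos _
  have hA0 : 0 < A := by rw [hA]; positivity
  have hn0 : (0 : ℝ) < n := by exact_mod_cast hn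
  have hX0 : 0 < X := lt_of_lt_of_le hφ hX
  obtain ⟨X0, hX0'⟩ : ∃ X0 : ℝ, X0 = φ + (11 + 10 * (n : ℝ)) * Real.sqrt ρ := ⟨_, rfl⟩
  rw [← hX0'] at hpot
  have hX0nn : 0 ≤ X0 := by rw [hX0']; positivity
  have hX0le : A * X0 ≤ 2 * A * φ := by
    have h1 : X0 ≤ 2 * φ := by rw [hX0']; linarith
    calc A * X0 ≤ A * (2 * φ) := mul_le_mul_of_nonneg_left h1 hA0.le
      _ = 2 * A * φ := by ring
  have h2n : (2 : ℝ) ≤ 2 ^ n := by
    calc (2 : ℝ) = 2 ^ 1 := (pow_one _).symm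
      _ ≤ 2 ^ n := pow_le_pow_right₀ (by norm_num) hn
  have h1 : (X * (1 + 1 / (1000 * n)) ^ β) ^ n ≤ (A * X0) ^ n := by
    refine hpot.trans ?_
    have e1 : (A * X0) ^ n = (2 * Real.exp 2003) ^ n * (2 ^ n * X0 ^ n) := by
      rw [← mul_pow, ← mul_pow, hA]
      congr 1
      ring
    rw [e1]
    exact mul_le_mul_of_nonneg_left (mul_le_mul_of_nonneg_right h2n (by positivity)) (by positivity)
  have hl : 0 ≤ 1 / (1000 * (n : ℝ)) := by positivity
  have h2 : X * (1 + 1 / (1000 * n)) ^ β ≤ 2 * A * φ :=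
    (le_of_pow_le_pow_left₀ (by omega) (mul_nonneg hA0.le hX0nn) h1).trans hX0le
  have h3 : (1 : ℝ) ≤ (1 + 1 / (1000 * n)) ^ β := one_le_pow₀ (by linarith)
  have h4 : X ≤ 2 * A * φ := by
    refine le_trans ?_ h2
    exact le_mul_of_one_le_right hX0.le h3
  refine ⟨h4, fun t ht => ?_⟩
  have h5 : (1 + 1 / (1000 * (n : ℝ))) ^ β ≤ 2 * A := by
    have h6 : φ * (1 + 1 / (1000 * (n : ℝ))) ^ β ≤ φ * (2 * A) := by
      refine ((mul_le_mul_of_nonneg_right hX (by positivity)).trans h2).trans_eq ?_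
      ring
    exact le_of_mul_le_mul_left h6 hφ
  have h8 : 1 + (β : ℝ) * (1 / (1000 * (n : ℝ))) ≤ 2 * A :=
    (one_add_mul_le_pow (by linarith) β).trans h5
  have h9 : (β : ℝ) ≤ 2000 * A * n := by
    have h10 : (β : ℝ) * (1 / (1000 * (n : ℝ))) ≤ 2 * A := by linarith
    have h11 : (β : ℝ) = (β : ℝ) * (1 / (1000 * (n : ℝ))) * (1000 * n) := by field_simp
    rw [h11]
    calc (β : ℝ) * (1 / (1000 * (n : ℝ))) * (1000 * n) ≤ 2 * A * (1000 * n) :=
        mul_le_mul_of_nonneg_right h10 (by positivity)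
      _ = 2000 * A * n := by ring
  have h12 : (β : ℝ) + 3 ≤ (C * n : ℕ) := by
    push_cast
    have hn1 : (1 : ℝ) ≤ n := by exact_mod_cast hn
    calc (β : ℝ) + 3 ≤ 2000 * A * n + 3 * n := by linarith
      _ = (2000 * A + 3) * n := by ring
      _ ≤ C * n := mul_le_mul_of_nonneg_right hC hn0.le
  have h13 : β + 3 ≤ C * n := by exact_mod_cast h12
  have h14 : (2 : ℝ) ^ (β + 3) ≤ N := by
    have : 2 ^ (β + 3) ≤ N := (Nat.pow_le_pow_right (by norm_num) h13).trans hN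
    exact_mod_cast this
  have hN0 : (0 : ℝ) < N := lt_of_lt_of_le (by positivity) h14
  rw [pow_add] at h14
  by_contra hlt
  push Not at hlt
  have h15 : 1 / 8 * (N : ℝ) < t * N := mul_lt_mul_of_pos_right hlt hN0
  norm_num at h14
  linarith

theorem bounds {N n : ℕ} (hn : 1 ≤ n) (f : Fin N → Fin N → ℝ) (A ρ φ : ℝ) (C : ℕ)
    (hA : A = 4 * Real.exp 2003) (hC : 2000 * A + 3 ≤ C) (hN : 2 ^ (C * n) ≤ N) (hφ : 0 < φ)
    (hρ : (11 + 10 * (n : ℝ)) * Real.sqrt ρ ≤ φ) (S : St N n) (hV : Valid f S)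
    (hpot : S.pot φ n n ≤ (2 * Real.exp 2003) ^ n *
      (2 * (φ + (11 + 10 * (n : ℝ)) * Real.sqrt ρ) ^ n)) :
    (∀ u, S.X φ n u ≤ 2 * A * φ) ∧ (∀ w, S.Y φ n w ≤ 2 * A * φ) ∧
    (∀ u x, S.P u x ≤ 1 / 8) ∧ (∀ w y, S.Q w y ≤ 1 / 8) := by
  have hmu : ∀ e : Ed n, 0 < mu n n e := by
    intro e
    unfold mu
    split_ifs
    · linarith
    · exact one_pos
  have hX : ∀ u, φ ≤ S.X φ n u := by
    intro u
    unfold St.X
    have : 0 ≤ ∑ e : Ed n with e.1.1 = u, mu n n e * S.r e :=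
      sum_nonneg fun e _ => mul_nonneg (hmu e).le (hV.r_nn e)
    linarith
  have hY : ∀ u, φ ≤ S.Y φ n u := by
    intro u
    unfold St.Y
    have : 0 ≤ ∑ e : Ed n with e.1.2 = u, mu n n e * S.s e :=
      sum_nonneg fun e _ => mul_nonneg (hmu e).le (hV.s_nn e)
    linarith
  have hXn : ∀ u, 0 ≤ (S.X φ n u * (1 + 1 / (1000 * n)) ^ S.β u) ^ n := by
    intro u
    have := hφ.le.trans (hX u)
    positivity
  have hYn : ∀ u, 0 ≤ (S.Y φ n u * (1 + 1 / (1000 * n)) ^ S.γ u) ^ n := by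
    intro u
    have := hφ.le.trans (hY u)
    positivity
  have hXp : ∀ u, (S.X φ n u * (1 + 1 / (1000 * n)) ^ S.β u) ^ n ≤ S.pot φ n n := by
    intro u
    unfold St.pot
    have h1 := single_le_sum (f := fun u => (S.X φ n u *
      (1 + 1 / (1000 * n)) ^ S.β u) ^ n) (fun u _ => hXn u) (mem_univ u)
    have h2 := sum_nonneg (f := fun u => (S.Y φ n u *
      (1 + 1 / (1000 * n)) ^ S.γ u) ^ n) (s := univ) (fun u _ => hYn u)
    linarith
  have hYp : ∀ u, (S.Y φ n u * (1 + 1 / (1000 * n)) ^ S.γ u) ^ n ≤ S.pot φ n n := by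
    intro u
    unfold St.pot
    have h1 := single_le_sum (f := fun u => (S.Y φ n u *
      (1 + 1 / (1000 * n)) ^ S.γ u) ^ n) (fun u _ => hYn u) (mem_univ u)
    have h2 := sum_nonneg (f := fun u => (S.X φ n u *
      (1 + 1 / (1000 * n)) ^ S.β u) ^ n) (s := univ) (fun u _ => hXn u)
    linarith
  have kX := fun u => key hn A ρ φ _ C (S.β u) hA hC hN hφ hρ (hX u) ((hXp u).trans hpot)
  have kY := fun u => key hn A ρ φ _ C (S.γ u) hA hC hN hφ hρ (hY u) ((hYp u).trans hpot)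
  exact ⟨fun u => (kX u).1, fun u => (kY u).1, fun u x => (kX u).2 _ (hV.P_cap u x),
    fun u x => (kY u).2 _ (hV.Q_cap u x)⟩

/-- extraction of the copy with certificates -/
theorem extract {N n : ℕ} (f : Fin N → Fin N → ℝ) (hf : ∀ x y, 0 < f x y) (φ : ℝ) (hφ : 0 < φ)
    (L : ℝ) (S : St N n) (hV : Valid f S) (hX : ∀ u, S.X φ n u ≤ L) (hY : ∀ w, S.Y φ n w ≤ L)
    (hP : ∀ u x, S.P u x ≤ 1 / 8) (hQ : ∀ w y, S.Q w y ≤ 1 / 8) :
    ∃ r c : Idx 2 n → Fin N, (∀ u u', rank n u < rank n u' → r u < r u') ∧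
      (∀ w w', rank n w < rank n w' → c w < c w') ∧
      ∃ R T : Ed n → ℝ, (∀ e, 0 ≤ R e) ∧ (∀ e, 0 ≤ T e) ∧
        (∀ u, ∑ e : Ed n with e.1.1 = u, R e ≤ 4 / 3 * L) ∧
        (∀ w, ∑ e : Ed n with e.1.2 = w, T e ≤ 4 / 3 * L) ∧
        ∀ e : Ed n, f (r e.1.1) (c e.1.2) ≤ R e * T e := by
  classical
  have ha : ∀ u y, 0 < ∑ x, S.P u x * f x y := fun u y =>
    B7_pos (S.P u) (fun x => f x y) (hV.P_nn u) (hV.P_sum u) fun x => hf x y
  have hdn : ∀ u w, 0 < dn f (S.P u) (S.Q w) := by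
    intro u w
    rw [B7_dn]
    exact B7_pos (S.Q w) _ (hV.Q_nn w) (hV.Q_sum w) fun y => ha u y
  have hsY : ∀ w, ∑ e : Ed n with e.1.2 = w, S.s e ≤ L := by
    intro w
    refine le_trans ?_ (hY w)
    unfold St.Y
    have : ∑ e : Ed n with e.1.2 = w, S.s e ≤ ∑ e : Ed n with e.1.2 = w, mu n n e * S.s e :=
      sum_le_sum fun e _ => le_mul_of_one_le_left (hV.s_nn e) (B7_mu n e)
    linarith
  have hrX : ∀ u, ∑ e : Ed n with e.1.1 = u, S.r e ≤ L := by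
    intro u
    refine le_trans ?_ (hX u)
    unfold St.X
    have : ∑ e : Ed n with e.1.1 = u, S.r e ≤ ∑ e : Ed n with e.1.1 = u, mu n n e * S.r e :=
      sum_le_sum fun e _ => le_mul_of_one_le_left (hV.r_nn e) (B7_mu n e)
    linarith
  have hcol : ∀ w, ∃ y i j, i < y ∧ y < j ∧ 0 < S.Q w i ∧ 0 < S.Q w j ∧
      (∑ e : Ed n with e.1.2 = w, S.s e * (∑ x, S.P e.1.1 x * f x y) /
        dn f (S.P e.1.1) (S.Q w)) ≤ 4 / 3 * L := by
    intro w
    refine B7_pick (S.Q w) (fun y => ∑ e : Ed n with e.1.2 = w,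
      S.s e * (∑ x, S.P e.1.1 x * f x y) / dn f (S.P e.1.1) (S.Q w)) (hV.Q_nn w) (hV.Q_sum w)
      (hQ w) (fun y => ?_) L ?_
    · exact sum_nonneg fun e _ =>
        div_nonneg (mul_nonneg (hV.s_nn e) (ha _ _).le) (hdn _ _).le
    · refine le_trans (le_of_eq ?_) (hsY w)
      simp only [mul_sum (s := univ.filter fun e : Ed n => e.1.2 = w)]
      rw [sum_comm]
      refine sum_congr rfl fun e _ => ?_
      have h1 : ∀ y, S.Q w y * (S.s e * (∑ x, S.P e.1.1 x * f x y) /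
          dn f (S.P e.1.1) (S.Q w)) = S.s e / dn f (S.P e.1.1) (S.Q w) *
          (S.Q w y * ∑ x, S.P e.1.1 x * f x y) := fun y => by ring
      rw [sum_congr rfl fun y _ => h1 y, ← mul_sum, ← B7_dn, div_mul_cancel₀ _ (hdn _ _).ne']
  choose c c0 c1 hc0 hc1 hQ0 hQ1 hc using hcol
  have hrow : ∀ u, ∃ x i j, i < x ∧ x < j ∧ 0 < S.P u i ∧ 0 < S.P u j ∧
      (∑ e : Ed n with e.1.1 = u, S.r e * f x (c e.1.2) /
        (∑ x', S.P u x' * f x' (c e.1.2))) ≤ 4 / 3 * L := by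
    intro u
    refine B7_pick (S.P u) (fun x => ∑ e : Ed n with e.1.1 = u, S.r e * f x (c e.1.2) /
        (∑ x', S.P u x' * f x' (c e.1.2))) (hV.P_nn u) (hV.P_sum u)
      (hP u) (fun x => ?_) L ?_
    · exact sum_nonneg fun e _ =>
        div_nonneg (mul_nonneg (hV.r_nn e) (hf _ _).le) (ha _ _).le
    · refine le_trans (le_of_eq ?_) (hrX u)
      simp only [mul_sum (s := univ.filter fun e : Ed n => e.1.1 = u)]
      rw [sum_comm]
      refine sum_congr rfl fun e _ => ?_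
      have h1 : ∀ x, S.P u x * (S.r e * f x (c e.1.2) /
          (∑ x', S.P u x' * f x' (c e.1.2))) = S.r e / (∑ x', S.P u x' * f x' (c e.1.2)) *
          (S.P u x * f x (c e.1.2)) := fun x => by ring
      rw [sum_congr rfl fun x _ => h1 x, ← mul_sum, div_mul_cancel₀ _ (ha _ _).ne']
  choose r r0 r1 hr0 hr1 hP0 hP1 hr using hrow
  refine ⟨r, c, fun u u' h => ?_, fun w w' h => ?_,
    fun e => S.r e * f (r e.1.1) (c e.1.2) / (∑ x', S.P e.1.1 x' * f x' (c e.1.2)),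
    fun e => S.s e * (∑ x, S.P e.1.1 x * f x (c e.1.2)) / dn f (S.P e.1.1) (S.Q e.1.2),
    fun e => ?_, fun e => ?_, fun u => ?_, fun w => ?_, fun e => ?_⟩
  · have h1 : r1 u ≤ r0 u' := by
      by_contra h2
      have := hV.P_ord u u' (r1 u) (r0 u') h (not_le.1 h2)
      have h3 := mul_pos (hP1 u) (hP0 u')
      linarith
    exact (hr1 u).trans (h1.trans_lt (hr0 u'))
  · have h1 : c1 w ≤ c0 w' := by
      by_contra h2
      have := hV.Q_ord w w' (c1 w) (c0 w') h (not_le.1 h2)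
      have h3 := mul_pos (hQ1 w) (hQ0 w')
      linarith
    exact (hc1 w).trans (h1.trans_lt (hc0 w'))
  · exact div_nonneg (mul_nonneg (hV.r_nn e) (hf _ _).le) (ha _ _).le
  · exact div_nonneg (mul_nonneg (hV.s_nn e) (ha _ _).le) (hdn _ _).le
  · refine (le_of_eq ?_).trans (hr u)
    refine sum_congr rfl fun e he => ?_
    have h1 : e.1.1 = u := (mem_filter.1 he).2
    subst h1
    rfl
  · refine (le_of_eq ?_).trans (hc w)
    refine sum_congr rfl fun e he => ?_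
    have h1 : e.1.2 = w := (mem_filter.1 he).2
    subst h1
    rfl
  · have hD := hdn e.1.1 e.1.2
    have hA := ha e.1.1 (c e.1.2)
    have hF := hf (r e.1.1) (c e.1.2)
    have hcert := hV.cert e
    set D := dn f (S.P e.1.1) (S.Q e.1.2)
    set A := ∑ x, S.P e.1.1 x * f x (c e.1.2)
    set F := f (r e.1.1) (c e.1.2)
    have h1 : S.r e * F / A * (S.s e * A / D) = (S.r e * S.s e) * F / D := by
      field_simp
    rw [h1, le_div_iff₀ hD, mul_comm F D]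
    exact mul_le_mul_of_nonneg_right hcert hF.le

/-- The number of the missing edges charged to a row is at most the load. -/
theorem count_le {ι : Type} (s : Finset ι) (R : ι → ℝ) (hR : ∀ e ∈ s, 0 ≤ R e) (L : ℝ)
    (h : ∑ e ∈ s, R e ≤ L) (t : Finset ι) (ht : ∀ e ∈ t, e ∈ s ∧ 1 ≤ R e) : (t.card : ℝ) ≤ L := by
  refine le_trans ?_ h
  calc (t.card : ℝ) = ∑ e ∈ t, (1 : ℝ) := by rw [sum_const, nsmul_eq_mul, mul_one]
    _ ≤ ∑ e ∈ t, R e := sum_le_sum fun e he => (ht e he).2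
    _ ≤ ∑ e ∈ s, R e := sum_le_sum_of_subset_of_nonneg (fun e he => (ht e he).1) fun e he _ => hR e he

/-- Windows with constant density: few missing edges at every vertex, in one of the two directions. -/
theorem win (ε : ℝ) (hε : 0 < ε) : ∃ C G : ℕ, 0 < G ∧ ∀ n : ℕ, 1 ≤ n → ∀ N : ℕ, 2 ^ (C * n) ≤ N →
    ∀ b : Fin N → Fin N → ℝ, (∀ x y, b x y = 0 ∨ b x y = 1) →
    (∑ x, ∑ y, b x y) * G ≤ (N : ℝ) ^ 2 →
    ∃ r c : Idx 2 n → Fin N, (∀ u u', rank n u < rank n u' → r u < r u') ∧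
      (∀ w w', rank n w < rank n w' → c w < c w') ∧
      ∃ Ch : Idx 2 n → Idx 2 n → Prop,
        (∀ u, ({w | (u = w ∨ adj (fun a b : Fin 2 => a ≠ b) n u w) ∧ b (r u) (c w) = 1 ∧
          Ch u w}.ncard : ℝ) ≤ ε * n) ∧
        (∀ w, ({u | (u = w ∨ adj (fun a b : Fin 2 => a ≠ b) n u w) ∧ b (r u) (c w) = 1 ∧
          ¬ Ch u w}.ncard : ℝ) ≤ ε * n) := by
  classical
  obtain ⟨A, hA⟩ : ∃ A : ℝ, A = 4 * Real.exp 2003 := ⟨_, rfl⟩
  have hA0 : 0 < A := by rw [hA]; positivity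
  obtain ⟨C, hC⟩ := exists_nat_ge (2000 * A + 3)
  obtain ⟨G, hG⟩ := exists_nat_ge (2 * (56 * A / ε) ^ 2)
  have hG0 : (0 : ℝ) < G := lt_of_lt_of_le (by positivity) hG
  refine ⟨C, G, by exact_mod_cast hG0, fun n hn N hN b hb hbs => ?_⟩
  have hn0 : (0 : ℝ) < n := by exact_mod_cast hn
  have hN1 : 0 < N := lt_of_lt_of_le (by positivity) hN
  have hNr : (0 : ℝ) < N := by exact_mod_cast hN1
  obtain ⟨κ, hκ⟩ : ∃ κ : ℝ, κ = 1 / (G : ℝ) := ⟨_, rfl⟩
  have hκ0 : 0 < κ := by rw [hκ]; positivity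
  obtain ⟨φ, hφe⟩ : ∃ φ : ℝ, φ = 3 * ε * n / (8 * A) := ⟨_, rfl⟩
  have hφ : 0 < φ := by rw [hφe]; positivity
  let f : Fin N → Fin N → ℝ := fun x y => b x y + κ
  have hf : ∀ x y, 0 < f x y := fun x y => by
    have : 0 ≤ b x y := by
      rcases hb x y with h | h <;> rw [h]
      exact zero_le_one
    simp only [f]
    linarith
  have hsum : (∑ x, ∑ y, f x y) / (N : ℝ) ^ 2 ≤ 2 * κ := by
    rw [div_le_iff₀ (by positivity)]
    have h1 : ∑ x, ∑ y, f x y = ∑ x, ∑ y, b x y + (N : ℝ) ^ 2 * κ := by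
      simp only [f, sum_add_distrib, sum_const, card_univ, Fintype.card_fin, nsmul_eq_mul]
      ring
    have h2 : ∑ x, ∑ y, b x y ≤ (N : ℝ) ^ 2 * κ := by
      rw [hκ, mul_one_div, le_div_iff₀ (by positivity)]
      exact hbs
    rw [h1]
    linarith
  have hρ : (11 + 10 * (n : ℝ)) * Real.sqrt ((∑ x, ∑ y, f x y) / (N : ℝ) ^ 2) ≤ φ := by
    have h1 : Real.sqrt ((∑ x, ∑ y, f x y) / (N : ℝ) ^ 2) ≤ ε / (56 * A) := by
      apply Real.sqrt_le_iff.2
      refine ⟨by positivity, hsum.trans ?_⟩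
      rw [hκ, div_pow, mul_one_div, div_le_div_iff₀ hG0 (by positivity)]
      have h2 : 2 * (56 * A) ^ 2 = ε ^ 2 * (2 * (56 * A / ε) ^ 2) := by
        field_simp
      rw [h2]
      gcongr
    have hn1 : (1 : ℝ) ≤ n := by exact_mod_cast hn
    calc (11 + 10 * (n : ℝ)) * Real.sqrt ((∑ x, ∑ y, f x y) / (N : ℝ) ^ 2)
        ≤ (21 * n) * (ε / (56 * A)) := by
          gcongr
          linarith
      _ = φ := by
          rw [hφe]
          field_simp
          norm_num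
  obtain ⟨S, hV, hpot⟩ := iterate hN1 f hf φ hφ n n hn n le_rfl
  obtain ⟨g1, g2, g3, g4⟩ := bounds hn f A _ φ C hA hC hN hφ hρ S hV hpot
  obtain ⟨r, c, hr, hc, R, T, hR, hT, hRs, hTs, hRT⟩ :=
    extract f hf φ hφ (2 * A * φ) S hV g1 g2 g3 g4
  have hL : 4 / 3 * (2 * A * φ) = ε * n := by
    rw [hφe]
    field_simp
    norm_num
  rw [hL] at hRs hTs
  refine ⟨r, c, hr, hc, fun u w => ∃ h : isE n u w, 1 ≤ R ⟨(u, w), h⟩, fun u => ?_, fun w => ?_⟩
  · let t : Finset (Ed n) := univ.filter fun e => e.1.1 = u ∧ 1 ≤ R e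
    have h1 : {w | (u = w ∨ adj (fun a b : Fin 2 => a ≠ b) n u w) ∧ b (r u) (c w) = 1 ∧
        ∃ h : isE n u w, 1 ≤ R ⟨(u, w), h⟩} ⊆ (t.image fun e => e.1.2 : Finset (Idx 2 n)) := by
      rintro w ⟨_, _, h, hR1⟩
      exact mem_coe.2 (mem_image.2 ⟨⟨(u, w), h⟩, mem_filter.2 ⟨mem_univ _, rfl, hR1⟩, rfl⟩)
    have h2 := (Set.ncard_le_ncard h1 (Set.toFinite _)).trans
      ((Set.ncard_coe_finset _).le.trans card_image_le)
    refine le_trans (Nat.cast_le.2 h2) ?_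
    exact count_le (univ.filter fun e : Ed n => e.1.1 = u) R (fun e _ => hR e) _ (hRs u) t
      fun e he => ⟨mem_filter.2 ⟨mem_univ _, (mem_filter.1 he).2.1⟩, (mem_filter.1 he).2.2⟩
  · let t : Finset (Ed n) := univ.filter fun e => e.1.2 = w ∧ 1 ≤ T e
    have h1 : {u | (u = w ∨ adj (fun a b : Fin 2 => a ≠ b) n u w) ∧ b (r u) (c w) = 1 ∧
        ¬ ∃ h : isE n u w, 1 ≤ R ⟨(u, w), h⟩} ⊆ (t.image fun e => e.1.1 : Finset (Idx 2 n)) := by
      rintro u ⟨h, hbu, hR1⟩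
      refine mem_coe.2 (mem_image.2 ⟨⟨(u, w), h⟩, mem_filter.2 ⟨mem_univ _, rfl, ?_⟩, rfl⟩)
      have h3 := hRT ⟨(u, w), h⟩
      have h4 : 1 ≤ f (r u) (c w) := by
        simp only [f]
        rw [hbu]
        linarith
      have h5 : R ⟨(u, w), h⟩ < 1 := by
        by_contra h6
        exact hR1 ⟨h, not_lt.1 h6⟩
      by_contra h6
      have h7 : R ⟨(u, w), h⟩ * T ⟨(u, w), h⟩ < 1 := by
        have h8 := hR ⟨(u, w), h⟩
        have h9 := hT ⟨(u, w), h⟩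
        nlinarith [not_le.1 h6]
      have h10 : f (r u) (c w) ≤ R ⟨(u, w), h⟩ * T ⟨(u, w), h⟩ := h3
      linarith
    have h2 := (Set.ncard_le_ncard h1 (Set.toFinite _)).trans
      ((Set.ncard_coe_finset _).le.trans card_image_le)
    refine le_trans (Nat.cast_le.2 h2) ?_
    exact count_le (univ.filter fun e : Ed n => e.1.2 = w) T (fun e _ => hT e) _ (hTs w) t
      fun e he => ⟨mem_filter.2 ⟨mem_univ _, (mem_filter.1 he).2.1⟩, (mem_filter.1 he).2.2⟩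

end Pool.Agent.Helper2.AC
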