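import Mathlib
import Pool.Agent.Helper53.OC.Final
import Pool.Agent.Helper2.AC.Win
import Pool.Agent.Helper2.AC.Copy
import Pool.Agent.Helper2.AC.DG

/-!
Ordered Ramsey numbers of the cube (MP_09b4c2): assembly of the two theorems.
-/

namespace Pool.Agent.Helper2.AC

open Finset
open Pool.Agent.Helper96.OR (Idx adj rank dens)
open Pool.Agent.Helper53.OC

/-- greedy step with exact sizes -/
theorem dich {h : ℕ} (E : Fin h → Fin h → Prop) (hsym : ∀ v w, E v w → E w v)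
    (hirr : ∀ v, ¬ E v v) (ρ : Fin h → ℕ) (hρ : Function.Injective ρ) (D : ℕ)
    (hD : ∀ v, {w | E v w ∧ ρ w < ρ v}.ncard ≤ D) (b : ℕ → ℕ → ℝ)
    (hb : ∀ r c, b r c = 0 ∨ b r c = 1) (G M N : ℕ) (hG : 0 < G) (hM : 0 < M)
    (hN : h * (h * M * G ^ D) ≤ N) :
    (∃ x : Fin h → Fin N, StrictMono x ∧ ∀ v w, v < w → E v w → b (x v) (x w) = 1) ∨
    ∃ (m : ℕ) (B C : Finset ℕ), B.card = M ∧ C.card = M ∧ (∀ x ∈ B, x < m) ∧
      (∀ y ∈ C, m ≤ y ∧ y < N) ∧ Pool.Agent.Helper96.OR.dens b B C * G ≤ 1 := by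
  rcases Nat.eq_zero_or_pos h with hh | hh
  · subst hh
    exact Or.inl ⟨fun v => v.elim0, fun v => v.elim0, fun v => v.elim0⟩
  obtain ⟨s, hs⟩ : ∃ s, s = h * M * G ^ D := ⟨_, rfl⟩
  rw [← hs] at hN
  have hs0 : 0 < s := by rw [hs]; positivity
  have hGr : (0 : ℝ) < G := by exact_mod_cast hG
  have hδ0 : (0 : ℝ) < 1 / (G : ℝ) := by positivity
  have hδ1 : (1 : ℝ) / (G : ℝ) ≤ 1 := by
    rw [div_le_one hGr]
    exact_mod_cast hG
  have hle : ∀ v : Fin h, ((v : ℕ) + 1) * s ≤ N := fun v =>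
    (Nat.mul_le_mul_right s v.2).trans hN
  have hbn : ∀ r c, 0 ≤ b r c := fun r c => by
    rcases hb r c with h | h <;> rw [h]
    exact zero_le_one
  rcases dgrr E hsym hirr ρ hρ D hD b hb s hs0 (1 / (G : ℝ)) hδ0 hδ1 with
    ⟨x, hx, hx2⟩ | ⟨v, w, hvw, B, hB, C, hC, hBs, hCs, hB0, hC0, hd⟩
  · left
    have hxN : ∀ v, x v < N := fun v => (mem_Ico.1 (hx v)).2.trans_le (hle v)
    refine ⟨fun v => ⟨x v, hxN v⟩, fun v w hvw => ?_, fun v w hvw hE => hx2 v w hvw hE⟩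
    rw [Fin.mk_lt_mk]
    have h1 := (mem_Ico.1 (hx v)).2
    have h2 := (mem_Ico.1 (hx w)).1
    have h3 : ((v : ℕ) + 1) * s ≤ (w : ℕ) * s := Nat.mul_le_mul_right _ hvw
    omega
  · right
    have hsz : (1 / (G : ℝ)) ^ D * s = h * M := by
      rw [hs]
      push_cast
      rw [div_pow, one_pow]
      have : (0 : ℝ) < (G : ℝ) ^ D := by positivity
      field_simp
    have hhr : (0 : ℝ) < h := by exact_mod_cast hh
    rw [hsz] at hBs hCs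
    have hB1 : M ≤ B.card := by exact_mod_cast le_of_mul_le_mul_left hBs hhr
    have hC1 : M ≤ C.card := by exact_mod_cast le_of_mul_le_mul_left hCs hhr
    obtain ⟨B', hB', C', hC', hBc, hCc, hle'⟩ := Pool.Agent.Helper96.OR.exact_size b hbn B C M M
      hM hM hB1 hC1
    refine ⟨(w : ℕ) * s, B', C', hBc, hCc, fun x hx => ?_, fun y hy => ?_, ?_⟩
    · have h1 := (mem_Ico.1 (hB (hB' hx))).2
      have h3 : ((v : ℕ) + 1) * s ≤ (w : ℕ) * s := Nat.mul_le_mul_right _ hvw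
      omega
    · have h1 := mem_Ico.1 (hC (hC' hy))
      exact ⟨h1.1, h1.2.trans_le (hle w)⟩
    · have h3 : Pool.Agent.Helper96.OR.dens b B' C' ≤ 1 / (G : ℝ) := hle'.trans hd.le
      calc Pool.Agent.Helper96.OR.dens b B' C' * (G : ℝ) ≤ 1 / (G : ℝ) * G := by gcongr
        _ = 1 := by field_simp

/-- the windows for sets of integers -/
theorem win' (ε : ℝ) (hε : 0 < ε) : ∃ C G : ℕ, 0 < G ∧ ∀ n : ℕ, 1 ≤ n → ∀ N : ℕ, 2 ^ (C * n) ≤ N →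
    ∀ b : ℕ → ℕ → ℝ, (∀ x y, b x y = 0 ∨ b x y = 1) → ∀ B C' : Finset ℕ, B.card = N →
    C'.card = N → Pool.Agent.Helper96.OR.dens b B C' * G ≤ 1 →
    ∃ r c : Idx 2 n → ℕ, (∀ u, r u ∈ B) ∧ (∀ w, c w ∈ C') ∧
      (∀ u u', rank n u < rank n u' → r u < r u') ∧
      (∀ w w', rank n w < rank n w' → c w < c w') ∧
      ∃ Ch : Idx 2 n → Idx 2 n → Prop,
        (∀ u, ({w | (u = w ∨ adj (fun a b : Fin 2 => a ≠ b) n u w) ∧ b (r u) (c w) = 1 ∧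
          Ch u w}.ncard : ℝ) ≤ ε * n) ∧
        (∀ w, ({u | (u = w ∨ adj (fun a b : Fin 2 => a ≠ b) n u w) ∧ b (r u) (c w) = 1 ∧
          ¬ Ch u w}.ncard : ℝ) ≤ ε * n) := by
  obtain ⟨C, G, hG, h⟩ := win ε hε
  refine ⟨C, G, hG, fun n hn N hN b hb B C' hB hC' hd => ?_⟩
  have hN0 : 0 < N := lt_of_lt_of_le (by positivity) hN
  have hNr : (0 : ℝ) < N := by exact_mod_cast hN0
  obtain ⟨r, c, hr, hc, Ch, h1, h2⟩ := h n hn N hN
    (fun x y => b (B.orderEmbOfFin hB x) (C'.orderEmbOfFin hC' y)) (fun x y => hb _ _) (by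
      have e1 : (∑ x : Fin N, ∑ y : Fin N, b (B.orderEmbOfFin hB x) (C'.orderEmbOfFin hC' y)) =
          ∑ x ∈ B, ∑ y ∈ C', b x y := by
        rw [← B9a_sum B N hB (fun x => ∑ y ∈ C', b x y)]
        refine Finset.sum_congr rfl fun x _ => ?_
        exact B9a_sum C' N hC' (fun y => b (B.orderEmbOfFin hB x) y)
      rw [e1]
      have e2 : Pool.Agent.Helper96.OR.dens b B C' = (∑ x ∈ B, ∑ y ∈ C', b x y) / ((N : ℝ) * N) := by
        rw [Pool.Agent.Helper96.OR.dens, hB, hC']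
      rw [e2, div_mul_eq_mul_div, div_le_one (by positivity)] at hd
      rw [sq (N : ℝ)]
      exact hd)
  exact ⟨fun u => B.orderEmbOfFin hB (r u), fun w => C'.orderEmbOfFin hC' (c w),
    fun u => B.orderEmbOfFin_mem hB _, fun w => C'.orderEmbOfFin_mem hC' _,
    fun u u' hu => (B.orderEmbOfFin hB).strictMono (hr u u' hu),
    fun w w' hw => (C'.orderEmbOfFin hC').strictMono (hc w w' hw), Ch, h1, h2⟩

/-- the properties of the ordering that are used -/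
def Good (d : ℕ) (σ : Fin (2 ^ d) ≃ (Fin d → Bool)) : Prop :=
  ∃ (h : Fin 2 → Fin 2 → Prop) (φ : (Fin d → Bool) → Bool × Idx 2 d),
    (∀ y, ¬ h y y) ∧ Function.Injective φ ∧
      (∀ i j : Fin (2 ^ d), i < j → hammingDist (σ i) (σ j) = 1 →
        (φ (σ i)).1 = false ∧ (φ (σ j)).1 = true ∧
        ((φ (σ i)).2 = (φ (σ j)).2 ∨ adj h d (φ (σ i)).2 (φ (σ j)).2)) ∧
      ∀ (N m : ℕ) (r c : Idx 2 d → ℕ), (∀ v, r v < m) → (∀ v, m ≤ c v) → (∀ v, c v < N) →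
      (∀ v v', rank d v < rank d v' → r v < r v') →
      (∀ v v', rank d v < rank d v' → c v < c v') →
      ∃ g : Fin (2 ^ d) → Fin N, StrictMono g ∧
        (∀ i, (φ (σ i)).1 = false → (g i : ℕ) = r (φ (σ i)).2) ∧
        (∀ i, (φ (σ i)).1 = true → (g i : ℕ) = c (φ (σ i)).2)

theorem good_exists (d : ℕ) : ∃ σ : Fin (2 ^ d) ≃ (Fin d → Bool), Good d σ := by
  obtain ⟨h, φ, hh, hi, hl, hφ, hφ2⟩ : ∃ (h : Fin 2 → Fin 2 → Prop)
      (φ : (Fin d → Bool) → Bool × Idx 2 d),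
      (∀ y y', h y y' → h y' y) ∧ (∀ y, ¬ h y y) ∧ (∀ y, {y' | h y y'}.ncard ≤ 1) ∧
      Function.Injective φ ∧
      ∀ x x', hammingDist x x' = 1 → (φ x).1 ≠ (φ x').1 ∧
        ((φ x).2 = (φ x').2 ∨ adj h d (φ x).2 (φ x').2) :=
    Pool.Agent.Helper96.OR.cube_code 1 d d (by omega)
  obtain ⟨σ, h1, h2⟩ := embed 2 d d h φ hφ hφ2
  exact ⟨σ, h, φ, hi, hφ, h1, h2⟩

/-- the 0-1 matrix of a colour -/
noncomputable def bm {N : ℕ} (f : Fin N → Fin N → Bool) (β : Bool) (r c : ℕ) : ℝ := by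
  classical
  exact if ∃ (hr : r < N) (hc : c < N), f ⟨r, hr⟩ ⟨c, hc⟩ = β then 1 else 0

theorem bm_01 {N : ℕ} (f : Fin N → Fin N → Bool) (β : Bool) (r c : ℕ) :
    bm f β r c = 0 ∨ bm f β r c = 1 := by
  unfold bm
  split_ifs
  · exact Or.inr rfl
  · exact Or.inl rfl

theorem bm_1 {N : ℕ} (f : Fin N → Fin N → Bool) (β : Bool) (r c : ℕ) (hr : r < N) (hc : c < N) :
    bm f β r c = 1 ↔ f ⟨r, hr⟩ ⟨c, hc⟩ = β := by
  constructor
  · intro h1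
    by_contra h2
    have : bm f β r c = 0 := if_neg fun ⟨_, _, h3⟩ => h2 h3
    rw [this] at h1
    exact zero_ne_one h1
  · intro h
    exact if_pos ⟨hr, hc, h⟩

theorem adj_ne {n : ℕ} (h : Fin 2 → Fin 2 → Prop) (hi : ∀ y, ¬ h y y) (u w : Idx 2 n)
    (huw : u = w ∨ adj h n u w) : u = w ∨ adj (fun a b : Fin 2 => a ≠ b) n u w :=
  huw.imp id (b9b_adj_mono h _ (fun y y' hy => by
    rintro rfl
    exact hi y hy) n u w)

/-- exact copies of sparse ordered graphs, or almost copies of the cube -/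
theorem almost (ε : ℝ) (hε : 0 < ε) : ∃ C : ℕ, ∀ (d : ℕ), 1 ≤ d → ∀ σ, Good d σ →
    ∀ (h : ℕ), h ≤ 2 ^ d → ∀ (H : SimpleGraph (Fin h)) (ρ : Fin h → ℕ), Function.Injective ρ →
    (∀ v, {w | H.Adj v w ∧ ρ w < ρ v}.ncard ≤ d) → ∀ N : ℕ, 2 ^ (C * d) ≤ N →
    ∀ (f : Fin N → Fin N → Bool) (β : Bool),
      (∃ g : Fin h → Fin N, StrictMono g ∧ ∀ i j, i < j → H.Adj i j → f (g i) (g j) = β) ∨
      ∃ g : Fin (2 ^ d) → Fin N, StrictMono g ∧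
        ∃ M : Fin (2 ^ d) → Finset (Fin (2 ^ d)), (∀ i, ((M i).card : ℝ) ≤ ε * d) ∧
          ∀ i j : Fin (2 ^ d), i < j → hammingDist (σ i) (σ j) = 1 →
            f (g i) (g j) = !β ∨ j ∈ M i ∨ i ∈ M j := by
  obtain ⟨C, G, hG, hW⟩ := win' ε hε
  refine ⟨C + G + 2, fun d hd σ hσ h hh H ρ hρ hD N hN f β => ?_⟩
  have hM0 : 0 < 2 ^ (C * d) := by positivity
  have hnum : h * (h * 2 ^ (C * d) * G ^ d) ≤ N := by
    refine le_trans ?_ hN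
    have h1 : G ^ d ≤ 2 ^ (G * d) := by
      rw [pow_mul]
      exact Nat.pow_le_pow_left Nat.lt_two_pow_self.le d
    calc h * (h * 2 ^ (C * d) * G ^ d) ≤ 2 ^ d * (2 ^ d * 2 ^ (C * d) * 2 ^ (G * d)) :=
          Nat.mul_le_mul hh (Nat.mul_le_mul (Nat.mul_le_mul_right _ hh) h1)
      _ = 2 ^ ((C + G + 2) * d) := by
          rw [← pow_add, ← pow_add, ← pow_add]
          congr 1
          ring
  rcases dich (fun v w => H.Adj v w) (fun v w h => h.symm) (fun v => H.loopless.irrefl v) ρ hρ d hD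
    (bm f β) (bm_01 f β) G (2 ^ (C * d)) N hG hM0 hnum with
    ⟨x, hx, hx2⟩ | ⟨m, B, C', hB, hC', hBm, hCm, hdn⟩
  · left
    exact ⟨x, hx, fun i j hij hE => (bm_1 f β _ _ (x i).2 (x j).2).1 (hx2 i j hij hE)⟩
  · right
    obtain ⟨r, c, hr, hc, hro, hco, Ch, h1, h2⟩ := hW d hd _ le_rfl (bm f β) (bm_01 f β) B C' hB
      hC' hdn
    obtain ⟨hl, φ, hi, hφ, hσ1, hσ2⟩ := hσ
    obtain ⟨g, hg, hg1, hg2⟩ := hσ2 N m r c (fun v => hBm _ (hr v)) (fun v => (hCm _ (hc v)).1)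
      (fun v => (hCm _ (hc v)).2) hro hco
    refine ⟨g, hg, almost_copy 2 d d hl φ hφ σ hσ1 N f β r c (bm f β)
      (fun x y hx hy h => (bm_1 f β x y hx hy).2 h) Ch (ε * d) (fun u => ?_) (fun w => ?_)
      g hg1 hg2⟩
    · refine le_trans ?_ (h1 u)
      rw [Nat.cast_le]
      refine Set.ncard_le_ncard ?_ (Set.toFinite _)
      rintro w ⟨h3, h4, h5⟩
      exact ⟨adj_ne hl hi u w h3, h4, h5⟩
    · refine le_trans ?_ (h2 w)
      rw [Nat.cast_le]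
      refine Set.ncard_le_ncard ?_ (Set.toFinite _)
      rintro u ⟨h3, h4, h5⟩
      exact ⟨adj_ne hl hi u w h3, h4, h5⟩

/-- exact copies of sparse ordered graphs, or exact copies of the cube -/
theorem offDiag : ∃ C : ℕ, ∀ (d : ℕ), 2 ≤ d → ∀ σ, Good d σ →
    ∀ (h D : ℕ), h ≤ 2 ^ d → d ^ D ≤ 2 ^ d → ∀ (H : SimpleGraph (Fin h)) (ρ : Fin h → ℕ),
    Function.Injective ρ → (∀ v, {w | H.Adj v w ∧ ρ w < ρ v}.ncard ≤ D) →
    ∀ N : ℕ, 2 ^ (C * d) ≤ N → ∀ (f : Fin N → Fin N → Bool) (β : Bool),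
      (∃ g : Fin h → Fin N, StrictMono g ∧ ∀ i j, i < j → H.Adj i j → f (g i) (g j) = β) ∨
      ∃ g : Fin (2 ^ d) → Fin N, StrictMono g ∧
        ∀ i j : Fin (2 ^ d), i < j → hammingDist (σ i) (σ j) = 1 → f (g i) (g j) = !β := by
  obtain ⟨C, K, hK, hW⟩ := thmD' thmD
  refine ⟨C + K + 4, fun d hd σ hσ h D hh hDd H ρ hρ hD N hN f β => ?_⟩
  have hM0 : 0 < 2 ^ (C * d) := by positivity
  have hG : 0 < K * d ^ 2 := by positivity
  have hnum : h * (h * 2 ^ (C * d) * (K * d ^ 2) ^ D) ≤ N := by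
    refine le_trans ?_ hN
    have h1 : (K * d ^ 2) ^ D ≤ 2 ^ ((K + 2) * d) := by
      have h2 : K ≤ d ^ K := (Nat.lt_two_pow_self).le.trans (Nat.pow_le_pow_left hd K)
      have h3 : K * d ^ 2 ≤ d ^ (K + 2) := by
        rw [pow_add]
        exact Nat.mul_le_mul_right _ h2
      calc (K * d ^ 2) ^ D ≤ (d ^ (K + 2)) ^ D := Nat.pow_le_pow_left h3 D
        _ = (d ^ D) ^ (K + 2) := by rw [← pow_mul, ← pow_mul, mul_comm]
        _ ≤ (2 ^ d) ^ (K + 2) := Nat.pow_le_pow_left hDd _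
        _ = 2 ^ ((K + 2) * d) := by rw [← pow_mul, mul_comm]
    calc h * (h * 2 ^ (C * d) * (K * d ^ 2) ^ D) ≤
          2 ^ d * (2 ^ d * 2 ^ (C * d) * 2 ^ ((K + 2) * d)) :=
          Nat.mul_le_mul hh (Nat.mul_le_mul (Nat.mul_le_mul_right _ hh) h1)
      _ = 2 ^ ((C + K + 4) * d) := by
          rw [← pow_add, ← pow_add, ← pow_add]
          congr 1
          ring
  rcases dich (fun v w => H.Adj v w) (fun v w h => h.symm) (fun v => H.loopless.irrefl v) ρ hρ D hD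
    (bm f β) (bm_01 f β) (K * d ^ 2) (2 ^ (C * d)) N hG hM0 hnum with
    ⟨x, hx, hx2⟩ | ⟨m, B, C', hB, hC', hBm, hCm, hdn⟩
  · left
    exact ⟨x, hx, fun i j hij hE => (bm_1 f β _ _ (x i).2 (x j).2).1 (hx2 i j hij hE)⟩
  · right
    obtain ⟨r, c, hr, hc, hro, hco, hrc⟩ := hW d (by omega) _ le_rfl (bm f β) (bm_01 f β) B C' hB
      hC' (by
        push_cast at hdn
        exact hdn)
    obtain ⟨hl, φ, hi, hφ, hσ1, hσ2⟩ := hσ
    obtain ⟨g, hg, hg1, hg2⟩ := hσ2 N m r c (fun v => hBm _ (hr v)) (fun v => (hCm _ (hc v)).1)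
      (fun v => (hCm _ (hc v)).2) hro hco
    refine ⟨g, hg, fun i j hij hd1 => full_copy 2 d d hl φ σ hσ1 N f (!β) r c
      (fun v w hvw hr' hc' => ?_) g hg1 hg2 i j hij hd1⟩
    have h3 := hrc v w (adj_ne hl hi v w hvw)
    rw [Bool.eq_not]
    intro h4
    rw [(bm_1 f β _ _ hr' hc').2 h4] at h3
    exact one_ne_zero h3

theorem almost_final : ∃ σ : ∀ d : ℕ, Fin (2 ^ d) ≃ (Fin d → Bool), ∀ ε : ℝ, 0 < ε →
    ∃ C : ℕ, ∀ d : ℕ, 1 ≤ d →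
    ∀ (h : ℕ), h ≤ 2 ^ d → ∀ (H : SimpleGraph (Fin h)) (ρ : Fin h → ℕ), Function.Injective ρ →
    (∀ v, {w | H.Adj v w ∧ ρ w < ρ v}.ncard ≤ d) → ∀ N : ℕ, 2 ^ (C * d) ≤ N →
    ∀ (f : Fin N → Fin N → Bool) (β : Bool),
      (∃ g : Fin h → Fin N, StrictMono g ∧ ∀ i j, i < j → H.Adj i j → f (g i) (g j) = β) ∨
      ∃ g : Fin (2 ^ d) → Fin N, StrictMono g ∧
        ∃ M : Fin (2 ^ d) → Finset (Fin (2 ^ d)), (∀ i, ((M i).card : ℝ) ≤ ε * d) ∧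
          ∀ i j : Fin (2 ^ d), i < j → hammingDist (σ d i) (σ d j) = 1 →
            f (g i) (g j) = !β ∨ j ∈ M i ∨ i ∈ M j := by
  choose σ hσ using good_exists
  refine ⟨σ, fun ε hε => ?_⟩
  obtain ⟨C, hC⟩ := almost ε hε
  exact ⟨C, fun d hd => hC d hd (σ d) (hσ d)⟩

theorem offDiag_final : ∃ C : ℕ, ∀ d : ℕ, 2 ≤ d → ∃ σ : Fin (2 ^ d) ≃ (Fin d → Bool),
    ∀ (h D : ℕ), h ≤ 2 ^ d → d ^ D ≤ 2 ^ d → ∀ (H : SimpleGraph (Fin h)) (ρ : Fin h → ℕ),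
    Function.Injective ρ → (∀ v, {w | H.Adj v w ∧ ρ w < ρ v}.ncard ≤ D) →
    ∀ N : ℕ, 2 ^ (C * d) ≤ N → ∀ (f : Fin N → Fin N → Bool) (β : Bool),
      (∃ g : Fin h → Fin N, StrictMono g ∧ ∀ i j, i < j → H.Adj i j → f (g i) (g j) = β) ∨
      ∃ g : Fin (2 ^ d) → Fin N, StrictMono g ∧
        ∀ i j : Fin (2 ^ d), i < j → hammingDist (σ i) (σ j) = 1 → f (g i) (g j) = !β := by
  obtain ⟨C, hC⟩ := offDiag
  refine ⟨C, fun d hd => ?_⟩
  obtain ⟨σ, hσ⟩ := good_exists d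
  exact ⟨σ, hC d hd σ hσ⟩

end Pool.Agent.Helper2.AC
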